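import Pool.Agent.H90.PredualProof

set_option autoImplicit false

namespace Pool.Agent.Results.MP_88a444_an.Necessary

open Pool.Agent.H90.AseDefs Pool.Agent.H90.PredualDefs

universe u v

/-- Real case: uniform convexity; complex case: complex uniform convexity. -/
theorem result :
    (∀ (X : Type u) (Y : Type v) [NormedAddCommGroup X] [NormedSpace ℝ X] [CompleteSpace X]
      [NormedAddCommGroup Y] [NormedSpace ℝ Y] [CompleteSpace Y],
      IsL1Predual ℝ X → CompactBPBpRSE ℝ X Y → UniformConvexSpace Y) ∧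
    (∀ (X : Type u) (Y : Type v) [NormedAddCommGroup X] [NormedSpace ℂ X] [CompleteSpace X]
      [NormedAddCommGroup Y] [NormedSpace ℂ Y] [CompleteSpace Y],
      IsL1Predual ℂ X → CompactBPBpRSE ℂ X Y → CUC Y) :=
  ⟨fun _ _ _ _ _ _ _ _ hX h => Pool.Agent.H90.PredualProof.real_case hX h,
    fun _ _ _ _ _ _ _ _ hX h _ hε => (Pool.Agent.H90.PredualProof.exists_data hX).elim
      fun D => Pool.Agent.H90.PredualProof.main D h hε⟩

end Pool.Agent.Results.MP_88a444_an.Necessary
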